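import Mathlib
import Pool.Agent.MP_bbfc69_co.HA.Main2

namespace Pool.Agent.Results.MP_bbfc69_co.BoundedIndependence

open Pool.Agent.MP_bbfc69_co.HA

open Classical in
/-- The number of forward arcs of a walk of the underlying graph. -/
noncomputable def forwardArcs {V : Type} (D : Digraph V) {u v : V}
    (C : D.toSimpleGraphInclusive.Walk u v) : ℕ :=
  C.darts.countP (fun d => D.Adj d.fst d.snd)

lemma ch_support {V : Type} {G : SimpleGraph V} {u v : V} (p : G.Walk u v) : Ch G p.support := by
  induction p with
  | nil => simp
  | cons h p ih =>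
    rw [SimpleGraph.Walk.support_cons, ← SimpleGraph.Walk.cons_tail_support p, ch_cons_cons,
      SimpleGraph.Walk.cons_tail_support p]
    exact ⟨h, ih⟩

lemma exists_walk {V : Type} (D : Digraph V) (X : List V) (a b : V)
    (h : Ch D.toSimpleGraphInclusive (a :: (X ++ [b]))) :
    ∃ p : D.toSimpleGraphInclusive.Walk a b, p.support = a :: (X ++ [b]) ∧
      forwardArcs D p + bw D.Adj (a :: (X ++ [b])) = X.length + 1 := by
  classical
  induction X generalizing a with
  | nil =>
    refine ⟨SimpleGraph.Walk.cons (by simpa using h) SimpleGraph.Walk.nil, by simp, ?_⟩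
    by_cases e : D.Adj a b <;> simp [forwardArcs, bw, e]
  | cons c X ih =>
    simp only [List.cons_append, ch_cons_cons] at h ⊢
    obtain ⟨p, hp1, hp2⟩ := ih c h.2
    refine ⟨SimpleGraph.Walk.cons h.1 p, by simp [hp1], ?_⟩
    rw [List.length_cons, ← hp2]
    by_cases e : D.Adj a c <;> simp [forwardArcs, bw, e] <;> omega

/-- Every finite digraph whose underlying graph is Hamiltonian, with independence number `α`, has
a Hamilton oriented cycle with at least `n - 1000 α ^ 10` forward arcs. -/
theorem result {V : Type} [Fintype V] [DecidableEq V] (D : Digraph V)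
    (hham : ∃ (v : V) (C : D.toSimpleGraphInclusive.Walk v v), C.IsHamiltonianCycle) :
    ∃ (v : V) (C : D.toSimpleGraphInclusive.Walk v v), C.IsHamiltonianCycle ∧
      Fintype.card V ≤ forwardArcs D C + 1000 * D.toSimpleGraphInclusive.indepNum ^ 10 := by
  obtain ⟨v, C, hC⟩ := hham
  have hI : Ind D.toSimpleGraphInclusive D.toSimpleGraphInclusive.indepNum := by
    intro I hI
    refine SimpleGraph.IsIndepSet.card_le_indepNum ?_
    intro x hx y hy _
    exact hI x hx y hy
  have hr : ∀ x y, D.toSimpleGraphInclusive.Adj x y → D.Adj x y ∨ D.Adj y x :=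
    fun x y h => ((SimpleGraph.fromRel_adj _ _ _).1 h).2
  have h3 : 3 ≤ Fintype.card V := by
    rw [← hC.length_eq]
    exact hC.isCycle.three_le_length
  obtain ⟨M, hM⟩ : ∃ M, C.support.tail = M ++ [v] := by
    have hne : C.support.tail ≠ [] := by
      intro h
      have h1 := C.length_support
      rw [← SimpleGraph.Walk.cons_tail_support C, h] at h1
      have := hC.isCycle.three_le_length
      simp only [List.length_cons, List.length_nil] at h1
      omega
    refine ⟨C.support.tail.dropLast, ?_⟩
    conv_lhs => rw [← List.dropLast_append_getLast hne]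
    rw [List.getLast_tail, SimpleGraph.Walk.getLast_support]
  have hs : C.support = v :: M ++ [v] := by
    rw [← SimpleGraph.Walk.cons_tail_support C, hM]; rfl
  have hnd : (v :: M).Nodup := by
    have := hC.isCycle.support_nodup
    rw [hM] at this
    exact (List.perm_append_singleton v M).nodup_iff.mp this
  obtain ⟨T, y1, y2, y3, y4⟩ := main2 hI hr v M (hs ▸ ch_support C) hnd (by
    intro z
    have := hC.mem_support z
    rw [hs] at this
    simp only [List.cons_append, List.mem_cons, List.mem_append, List.not_mem_nil,
      or_false] at this ⊢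
    tauto)
  obtain ⟨p, hp1, hp2⟩ := exists_walk D T v v y1
  have hlen : (v :: T).length = Fintype.card V := by
    rw [← List.toFinset_card_of_nodup y2, ← Finset.card_univ]
    congr 1
    ext x
    simpa using y3 x
  have hplen : p.length = Fintype.card V := by
    have := p.length_support
    rw [hp1] at this
    simp at this hlen
    omega
  refine ⟨v, p, ?_, ?_⟩
  · rw [SimpleGraph.Walk.isHamiltonianCycle_iff_isCycle_and_length_eq]
    refine ⟨?_, hplen⟩
    rw [SimpleGraph.Walk.isCycle_iff_isPath_tail_and_le_length]
    refine ⟨?_, by omega⟩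
    rw [SimpleGraph.Walk.isPath_def, SimpleGraph.Walk.support_tail_of_not_nil _
      (by rw [SimpleGraph.Walk.not_nil_iff_lt_length]; omega), hp1]
    exact (List.perm_append_singleton v T).nodup_iff.mpr y2
  · rw [List.cons_append] at y4
    rw [List.length_cons] at hlen
    omega

end Pool.Agent.Results.MP_bbfc69_co.BoundedIndependence
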