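import Mathlib
import Pool.Agent.MP_bbfc69_co.Big

namespace Pool.Agent.Results.MP_bbfc69_co.OreDiscrepancy

open Pool.Agent.MP_bbfc69_co

/-- The degree of `x` in the underlying graph: the number of vertices joined to `x` by an arc in
either direction. -/
noncomputable def deg {V : Type*} (D : Digraph V) (x : V) : ℕ :=
  {y | D.Adj x y ∨ D.Adj y x}.ncard

open Classical in
/-- The parameter `s*(D)`: the minimum of `d(u) + d(v) - n` over non-adjacent pairs `u ≠ v`, and
`n - 2` if there is no such pair. -/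
noncomputable def sStar {V : Type*} [Fintype V] (D : Digraph V) : ℤ :=
  if ∃ u v, u ≠ v ∧ ¬ D.Adj u v ∧ ¬ D.Adj v u then
    sInf {s : ℤ | ∃ u v, u ≠ v ∧ ¬ D.Adj u v ∧ ¬ D.Adj v u ∧
      s = (deg D u : ℤ) + (deg D v : ℤ) - (Fintype.card V : ℤ)}
  else (Fintype.card V : ℤ) - 2

open Classical in
/-- The number of forward arcs of a walk of the underlying graph. -/
noncomputable def forwardArcs {V : Type*} (D : Digraph V) {u v : V}
    (C : D.toSimpleGraphInclusive.Walk u v) : ℕ :=
  C.darts.countP (fun d => D.Adj d.fst d.snd)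

open Classical in
/-- The number of backward arcs of a walk of the underlying graph. -/
noncomputable def backwardArcs {V : Type*} (D : Digraph V) {u v : V}
    (C : D.toSimpleGraphInclusive.Walk u v) : ℕ :=
  C.darts.countP (fun d => D.Adj d.snd d.fst)

lemma exists_walk {V : Type*} (D : Digraph V) (hr : Asym D.Adj) (X : List V) (a b : V)
    (h : pw (bad D.Adj) (a :: (X ++ [b])) = 0) :
    ∃ p : D.toSimpleGraphInclusive.Walk a b, p.support = a :: (X ++ [b]) ∧
      (forwardArcs D p : ℤ) = pw (fw D.Adj) (a :: (X ++ [b])) := by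
  classical
  induction X generalizing a with
  | nil =>
    have hab : adj D.Adj a b := adj_of_bad (by simpa using h)
    refine ⟨SimpleGraph.Walk.cons ((SimpleGraph.fromRel_adj _ _ _).2 ⟨hr.ne hab, hab⟩)
      SimpleGraph.Walk.nil, by simp, ?_⟩
    by_cases e : D.Adj a b <;> simp [forwardArcs, fw, ind, e]
  | cons c X ih =>
    simp only [List.cons_append, pw_cons_cons] at h ⊢
    have h1 := bad_nonneg (r := D.Adj) a c
    have h2 := pw_bad_nonneg (r := D.Adj) (c :: (X ++ [b]))
    have hac : adj D.Adj a c := adj_of_bad (by omega)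
    obtain ⟨p, hp1, hp2⟩ := ih c (by omega)
    refine ⟨SimpleGraph.Walk.cons ((SimpleGraph.fromRel_adj _ _ _).2 ⟨hr.ne hac, hac⟩) p,
      by simp [hp1], ?_⟩
    rw [← hp2]
    by_cases e : D.Adj a c <;> simp [forwardArcs, fw, ind, e, add_comm]

lemma nd_univ {V : Type*} [Fintype V] (D : Digraph V) (hr : Asym D.Adj) (u : V) :
    nd D.Adj Finset.univ u = Fintype.card V - 1 - deg D u := by
  classical
  have h1 : (deg D u : ℤ) = ∑ x : V, ind (adj D.Adj u x) := by
    unfold deg
    rw [Set.ncard_eq_toFinset_card', Set.toFinset_ofPred, Finset.card_filter]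
    push_cast
    exact Finset.sum_congr rfl (fun x _ => by simp [ind, adj])
  have h2 : (1 : ℤ) = ∑ x : V, ind (x = u) := by simp [ind]
  have h3 : (Fintype.card V : ℤ) = ∑ _x : V, (1 : ℤ) := by simp
  rw [h1, h3]
  conv_rhs => enter [1, 2]; rw [h2]
  unfold nd
  rw [← Finset.sum_sub_distrib, ← Finset.sum_sub_distrib]
  apply Finset.sum_congr rfl
  intro x _
  by_cases e : x = u
  · rw [e, na_self, ind_pos rfl, ind_neg (hr.irr u)]; rfl
  · by_cases e' : adj D.Adj u x
    · rw [na_of_adj e', ind_neg e, ind_pos e']; rfl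
    · rw [na_of_not e e', ind_neg e, ind_neg e']; rfl

/-- Every oriented graph `D` on `n ≥ 3` vertices with `s*(D) ≥ 0` has a Hamilton oriented cycle
with at least `⌈(n + s*(D))/2⌉` arcs in a common direction. -/
theorem result {V : Type*} [Fintype V] [DecidableEq V] (D : Digraph V)
    (horiented : ∀ u v, D.Adj u v → ¬ D.Adj v u) (hn : 3 ≤ Fintype.card V) (hs : 0 ≤ sStar D) :
    ∃ (v : V) (C : D.toSimpleGraphInclusive.Walk v v), C.IsHamiltonianCycle ∧
      ⌈((Fintype.card V : ℚ) + (sStar D : ℚ)) / 2⌉ ≤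
        ((max (forwardArcs D C) (backwardArcs D C) : ℕ) : ℤ) := by
  have hr : Asym D.Adj := horiented
  have hO : OreC D.Adj Finset.univ ((Fintype.card V : ℤ) - sStar D - 2) ∧
      sStar D ≤ (Fintype.card V : ℤ) - 2 := by
    by_cases e : ∃ u v, u ≠ v ∧ ¬ D.Adj u v ∧ ¬ D.Adj v u
    · have hle : ∀ u v, u ≠ v → ¬ adj D.Adj u v →
          sStar D ≤ (deg D u : ℤ) + (deg D v : ℤ) - (Fintype.card V : ℤ) := by
        intro u v h1 h2
        unfold sStar
        rw [if_pos e]
        apply csInf_le
        · refine ⟨-(Fintype.card V : ℤ), ?_⟩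
          rintro s ⟨u, v, -, -, -, rfl⟩
          omega
        · exact ⟨u, v, h1, fun h => h2 (Or.inl h), fun h => h2 (Or.inr h), rfl⟩
      constructor
      · intro u _ v _ h1 h2
        have := hle u v h1 h2
        rw [nd_univ D hr, nd_univ D hr]
        omega
      · obtain ⟨u, v, h1, h2, h3⟩ := e
        have := hle u v h1 (fun h => h.elim h2 h3)
        have k1 := nd_univ D hr u
        have k2 := nd_univ D hr v
        have := nd_nonneg (r := D.Adj) Finset.univ u
        have := nd_nonneg (r := D.Adj) Finset.univ v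
        omega
    · constructor
      · intro u _ v _ h1 h2
        exact absurd ⟨u, v, h1, fun h => h2 (Or.inl h), fun h => h2 (Or.inr h)⟩ e
      · unfold sStar
        rw [if_neg e]
  obtain ⟨hO1, hO2⟩ := hO
  have hc : (Finset.univ : Finset V).card = Fintype.card V := Finset.card_univ
  obtain ⟨Y, y1, y2, y3⟩ : ∃ Y, Cyc D.Adj Finset.univ Y ∧ (∀ x ∈ Finset.univ, x ∈ Y) ∧
      (Fintype.card V : ℤ) + sStar D ≤ 2 * cw (fw D.Adj) Y := by
    by_cases e : 2 * (((Fintype.card V : ℤ) - sStar D) / 2) + 1 ≤ Fintype.card V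
    · obtain ⟨Y, y1, y2, y3⟩ := goal hr Finset.univ (((Fintype.card V : ℤ) - sStar D) / 2)
        (by omega) (by omega) (fun u hu v hv h1 h2 => by have := hO1 u hu v hv h1 h2; omega)
      exact ⟨Y, y1, y2, by omega⟩
    · obtain ⟨Y, y1, y2, y3⟩ := half_dir hr (K := Finset.univ) (by omega)
        (fun u hu v hv h1 h2 => by have := hO1 u hu v hv h1 h2; omega)
      exact ⟨Y, y1, y2, by omega⟩
  obtain ⟨a, T, rfl⟩ := List.exists_cons_of_ne_nil y1.ne
  obtain ⟨p, hp1, hp2⟩ := exists_walk D hr T a a y1.good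
  have hlen : (a :: T).length = Fintype.card V := by
    rw [← List.toFinset_card_of_nodup y1.nodup, ← hc]
    congr 1
    ext x
    simpa using y2 x (Finset.mem_univ x)
  have hplen : p.length = Fintype.card V := by
    have := p.length_support
    rw [hp1] at this
    simp at this hlen
    omega
  refine ⟨a, p, ?_, ?_⟩
  · rw [SimpleGraph.Walk.isHamiltonianCycle_iff_isCycle_and_length_eq]
    refine ⟨?_, hplen⟩
    rw [SimpleGraph.Walk.isCycle_iff_isPath_tail_and_le_length]
    refine ⟨?_, by omega⟩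
    rw [SimpleGraph.Walk.isPath_def, SimpleGraph.Walk.support_tail_of_not_nil _
      (by rw [SimpleGraph.Walk.not_nil_iff_lt_length]; omega), hp1]
    exact (List.perm_append_singleton a T).nodup_iff.mpr y1.nodup
  · rw [Int.ceil_le]
    have h1 : (Fintype.card V : ℤ) + sStar D ≤
        2 * ((max (forwardArcs D p) (backwardArcs D p) : ℕ) : ℤ) := by
      have := le_max_left (forwardArcs D p) (backwardArcs D p)
      have h2 : cw (fw D.Adj) (a :: T) = forwardArcs D p := hp2.symm
      omega
    have h2 : ((Fintype.card V : ℚ) + (sStar D : ℚ)) ≤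
        2 * (((max (forwardArcs D p) (backwardArcs D p) : ℕ) : ℤ) : ℚ) := by exact_mod_cast h1
    linarith

end Pool.Agent.Results.MP_bbfc69_co.OreDiscrepancy
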